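import Mathlib

set_option autoImplicit false

namespace Pool.Agent.H.MP_155eb7_gt

open Set Function TopologicalSpace Topology
open Cardinal hiding univ

lemma trans_rec {W S : Type} [LinearOrder W] [WellFoundedLT W] [Inhabited S]
    (P : W → (W → S) → S → Prop)
    (loc : ∀ ξ f g s, (∀ η < ξ, f η = g η) → P ξ f s → P ξ g s)
    (step : ∀ ξ f, (∀ η < ξ, P η f (f η)) → ∃ s, P ξ f s) : ∃ f, ∀ ξ, P ξ f (f ξ) := by
  classical
  let ext : ∀ ξ : W, (∀ η, η < ξ → S) → W → S := fun ξ g η => if h : η < ξ then g η h else default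
  let F : ∀ ξ : W, (∀ η, η < ξ → S) → S := fun ξ g =>
    if h : ∃ s, P ξ (ext ξ g) s then h.choose else default
  let f : W → S := (wellFounded_lt (α := W)).fix F
  have hf : ∀ ξ, f ξ = F ξ fun η _ => f η := fun ξ => WellFounded.fix_eq _ _ _
  refine ⟨f, fun ξ => ?_⟩
  induction ξ using (wellFounded_lt (α := W)).induction with
  | _ ξ ih =>
    have e : ∀ η < ξ, f η = ext ξ (fun η _ => f η) η := fun η h => by simp only [ext, dif_pos h]
    obtain ⟨s, hs⟩ := step ξ f ih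
    have h : ∃ s, P ξ (ext ξ fun η _ => f η) s := ⟨s, loc _ _ _ _ e hs⟩
    rw [hf ξ]
    simp only [F, dif_pos h]
    exact loc _ _ _ _ (fun η hη => (e η hη).symm) h.choose_spec

section

variable {K : Type} [TopologicalSpace K] (B : Set (Set K))

def Fn (s : Set (Set K × Bool)) : Prop :=
  (∀ p ∈ s, p.1 ∈ B) ∧ ∀ U, (U, true) ∈ s → (U, false) ∉ s

def Safe (s : Set (Set K × Bool)) : Prop :=
  Fn B s ∧ ∀ x V i, IsOpen V → x ∈ V → ∃ U ∈ B, x ∈ U ∧ U ⊆ V ∧ (U, i) ∉ s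

def Ful (s : Set (Set K × Bool)) (o : Set K × Set K) : Prop :=
  IsOpen o.2 → closure o.1 ⊆ o.2 → ∀ i, ∀ x ∈ closure o.1, ∃ U, (U, i) ∈ s ∧ x ∈ U ∧ U ⊆ o.2

def gen (N : Set (Set K × Bool)) : Set (Set K × Set K) := (Prod.fst '' N) ×ˢ (Prod.fst '' N)

variable {B}

lemma Ful.mono {s t : Set (Set K × Bool)} {o : Set K × Set K} (h : Ful s o) (hst : s ⊆ t) :
    Ful t o := fun h1 h2 i x hx =>
  let ⟨U, h3, h4⟩ := h h1 h2 i x hx
  ⟨U, hst h3, h4⟩

lemma Fn.ne {s : Set (Set K × Bool)} (h : Fn B s) {U : Set K} {i : Bool} (h1 : (U, i) ∈ s) :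
    (U, !i) ∉ s := by
  cases i
  · exact fun h2 => h.2 U h2 h1
  · exact h.2 U h1

variable [T2Space K] [CompactSpace K] (hB : IsTopologicalBasis B)
  (hK : ∀ x : K, ¬ IsOpen ({x} : Set K))

include hB hK in
lemma safe_fin {s t : Set (Set K × Bool)} (h : Safe B s) (ht : Fn B t) (hf : (t \ s).Finite) :
    Safe B t := by
  refine ⟨ht, fun x V i hV hx => ?_⟩
  have h1 : ∀ p : Set K × Bool, ∃ y, y ≠ x ∧ (p.1 ∈ B → x ∈ p.1 → y ∈ p.1) ∨
      ¬ (p.1 ∈ B ∧ x ∈ p.1) := by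
    intro p
    by_cases hp : p.1 ∈ B ∧ x ∈ p.1
    · by_contra hc
      push Not at hc
      apply hK x
      convert hB.isOpen hp.1 using 1
      refine Subset.antisymm (singleton_subset_iff.2 hp.2) fun y hy => ?_
      by_contra hne
      exact ((hc y).1 hne).2.2 hy
    · exact ⟨x, Or.inr hp⟩
  choose y hy using h1
  have hc : IsClosed (y '' (t \ s) \ {x}) := ((hf.image y).subset sdiff_subset).isClosed
  obtain ⟨U, h2, h3, h4, h5⟩ := h.2 x (V \ (y '' (t \ s) \ {x})) i (hV.sdiff hc)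
    ⟨hx, fun h => h.2 rfl⟩
  refine ⟨U, h2, h3, h4.trans sdiff_subset, fun h6 => ?_⟩
  rcases hy (U, i) with h7 | h7
  · exact (h4 (h7.2 h2 h3)).2 ⟨⟨_, ⟨h6, h5⟩, rfl⟩, h7.1⟩
  · exact h7 ⟨h2, h3⟩

include hB in
lemma safe_gen {s t : Set (Set K × Bool)} (h : Safe B s) (ht : Fn B t)
    (hg : ∀ o ∈ gen (t \ s), Ful t o) : Safe B t := by
  refine ⟨ht, fun x V i hV hx => ?_⟩
  by_contra hc
  push Not at hc
  obtain ⟨U, h1, h2, h3, h4⟩ := h.2 x V i hV hx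
  obtain ⟨C, h5, h6, h7⟩ := exists_mem_nhds_isClosed_subset ((hB.isOpen h1).mem_nhds h2)
  obtain ⟨U', h8, h9, h10, h11⟩ := h.2 x (interior C) i isOpen_interior (mem_interior_iff_mem_nhds.2 h5)
  have h12 : closure U' ⊆ U := (closure_minimal (h10.trans interior_subset) h6).trans h7
  obtain ⟨U'', h13, h14, h15⟩ := hg (U', U)
    ⟨⟨_, ⟨hc U' h8 h9 ((subset_closure.trans h12).trans h3), h11⟩, rfl⟩,
      ⟨_, ⟨hc U h1 h2 h3, h4⟩, rfl⟩⟩ (hB.isOpen h1) h12 (!i) x (subset_closure h9)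
  exact ht.ne (hc U'' (ht.1 _ h13) h14 (h15.trans h3)) h13

include hB hK in
lemma safe_one {s : Set (Set K × Bool)} (h : Safe B s) (o : Set K × Set K) :
    ∃ t, s ⊆ t ∧ Safe B t ∧ (t \ s).Finite ∧ Ful t o := by
  have key : ∀ s, Safe B s → ∀ i, ∃ t, s ⊆ t ∧ Safe B t ∧ (t \ s).Finite ∧ (IsOpen o.2 →
      closure o.1 ⊆ o.2 → ∀ x ∈ closure o.1, ∃ U, (U, i) ∈ t ∧ x ∈ U ∧ U ⊆ o.2) := by
    intro s h i
    by_cases ho : IsOpen o.2 ∧ closure o.1 ⊆ o.2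
    swap
    · exact ⟨s, Subset.rfl, h, by simp, fun h1 h2 => absurd ⟨h1, h2⟩ ho⟩
    choose U h1 h2 h3 h4 using fun x : closure o.1 => h.2 x o.2 (!i) ho.1 (ho.2 x.2)
    obtain ⟨F, hF⟩ := isClosed_closure.isCompact.elim_finite_subcover U
      (fun x => hB.isOpen (h1 x)) fun x hx => mem_iUnion.2 ⟨⟨x, hx⟩, h2 _⟩
    have hfin : ((s ∪ (fun x => (U x, i)) '' F) \ s).Finite :=
      (F.finite_toSet.image _).subset fun p hp => hp.1.resolve_left hp.2
    refine ⟨s ∪ (fun x => (U x, i)) '' F, subset_union_left, safe_fin hB hK h ⟨?_, ?_⟩ hfin, hfin,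
      fun _ _ x hx => ?_⟩
    · rintro p (hp | ⟨x, -, rfl⟩)
      · exact h.1.1 p hp
      · exact h1 x
    · rintro V (hp | ⟨x, -, e⟩) (hq | ⟨y, -, e'⟩)
      · exact h.1.2 V hp hq
      · obtain ⟨rfl, rfl⟩ := Prod.mk.inj e'
        exact h4 y hp
      · obtain ⟨rfl, rfl⟩ := Prod.mk.inj e
        exact h4 x hq
      · have := (Prod.mk.inj e).2.symm.trans (Prod.mk.inj e').2
        simp at this
    · obtain ⟨y, hy, h5⟩ := mem_iUnion₂.1 (hF hx)
      exact ⟨U y, Or.inr ⟨y, hy, rfl⟩, h5, h3 y⟩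
  obtain ⟨t, h1, h2, h3, h4⟩ := key s h true
  obtain ⟨t', h5, h6, h7, h8⟩ := key t h2 false
  refine ⟨t', h1.trans h5, h6, (h3.union h7).subset fun p hp => ?_, fun h9 h10 i x hx => ?_⟩
  · by_cases hp' : p ∈ t
    · exact Or.inl ⟨hp', hp.2⟩
    · exact Or.inr ⟨hp.1, hp'⟩
  · cases i
    · exact h8 h9 h10 x hx
    · obtain ⟨U, h11, h12⟩ := h4 h9 h10 x hx
      exact ⟨U, h5 h11, h12⟩

include hB hK in
lemma safe_finite (O : Set (Set K × Set K)) (hO : O.Finite) {s : Set (Set K × Bool)}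
    (h : Safe B s) : ∃ t, s ⊆ t ∧ Safe B t ∧ (t \ s).Finite ∧ ∀ o ∈ O, Ful t o := by
  induction O, hO using Set.Finite.induction_on with
  | empty => exact ⟨s, Subset.rfl, h, by simp, by simp⟩
  | @insert o O _ _ ih =>
    obtain ⟨t, h1, h2, h3, h4⟩ := ih
    obtain ⟨t', h5, h6, h7, h8⟩ := safe_one hB hK h2 o
    refine ⟨t', h1.trans h5, h6, (h3.union h7).subset fun p hp => ?_, ?_⟩
    · by_cases hp' : p ∈ t
      · exact Or.inl ⟨hp', hp.2⟩
      · exact Or.inr ⟨hp.1, hp'⟩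
    · rintro o' (rfl | ho)
      · exact h8
      · exact (h4 o' ho).mono h5

def Sm {α : Type} (μ : Cardinal) (N : Set α) : Prop := N.Finite ∨ (ℵ₀ ≤ μ ∧ #N ≤ μ)

lemma Sm.le {α : Type} {μ : Cardinal} {N : Set α} (h : Sm μ N) (hμ : ℵ₀ ≤ μ) : #N ≤ μ :=
  h.elim (fun h => h.lt_aleph0.le.trans hμ) And.right

lemma Sm.mono {α : Type} {μ ν : Cardinal} {N M : Set α} (h : Sm μ N) (hμ : μ ≤ ν) (hM : M ⊆ N) :
    Sm ν M :=
  h.imp (fun h => h.subset hM) fun h =>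
    ⟨h.1.trans hμ, ((Cardinal.mk_le_mk_of_subset hM).trans h.2).trans hμ⟩

lemma Sm.union {α : Type} {μ : Cardinal} {N M : Set α} (h : Sm μ N) (h' : Sm μ M) :
    Sm μ (N ∪ M) := by
  by_cases hμ : ℵ₀ ≤ μ
  · exact Or.inr ⟨hμ, (Cardinal.mk_union_le _ _).trans
      ((add_le_add (h.le hμ) (h'.le hμ)).trans (Cardinal.add_eq_self hμ).le)⟩
  · exact Or.inl ((h.resolve_right fun h => hμ h.1).union (h'.resolve_right fun h => hμ h.1))

lemma Sm.biUnion {α W : Type} (I : Set W) (f : W → Set α) (h : ∀ i ∈ I, Sm #I (f i)) :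
    Sm #I (⋃ i ∈ I, f i) := by
  by_cases hμ : ℵ₀ ≤ #I
  · refine Or.inr ⟨hμ, (Cardinal.mk_biUnion_le f I).trans ?_⟩
    refine (mul_le_mul_right (ciSup_le' fun i : I => (h i i.2).le hμ) _).trans ?_
    exact (Cardinal.mul_eq_self hμ).le
  · exact Or.inl ((Cardinal.lt_aleph0_iff_set_finite.1 (not_le.1 hμ)).biUnion fun i hi =>
      (h i hi).resolve_right fun h => hμ h.1)

omit [TopologicalSpace K] [T2Space K] [CompactSpace K] in
lemma Sm.gen {μ : Cardinal} {N : Set (Set K × Bool)} (h : Sm μ N) : Sm μ (gen N) := by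
  rcases h with h | h
  · exact Or.inl ((h.image _).prod (h.image _))
  · refine Or.inr ⟨h.1, ?_⟩
    rw [MP_155eb7_gt.gen, Cardinal.mk_setProd]
    have := (Cardinal.mk_image_le (f := Prod.fst) (s := N)).trans h.2
    exact (mul_le_mul' this this).trans (Cardinal.mul_eq_self h.1).le

include hB in
lemma safe_lim {W : Type} [LinearOrder W] (I : Set W) (hI : ∀ a ∈ I, ∃ b ∈ I, a < b)
    {s : Set (Set K × Bool)} (hs : Safe B s) (f : W → Set (Set K × Bool))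
    (h1 : ∀ a ∈ I, Safe B (f a) ∧ s ⊆ f a ∧ (∀ b < a, f b ⊆ f a) ∧
      ∀ o ∈ gen ((⋃ b ∈ Iio a, f b) \ s), Ful (f a) o) : Safe B (s ∪ ⋃ a ∈ I, f a) := by
  have hle : ∀ a ∈ I, ∀ b ≤ a, f b ⊆ f a := fun a ha b hb =>
    hb.eq_or_lt.elim (fun e => e ▸ Subset.rfl) ((h1 a ha).2.2.1 b)
  refine safe_gen hB hs ⟨?_, ?_⟩ ?_
  · rintro p (hp | hp)
    · exact hs.1.1 p hp
    · obtain ⟨a, ha, hp⟩ := mem_iUnion₂.1 hp
      exact (h1 a ha).1.1.1 p hp
  · rintro U (hp | hp) (hq | hq)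
    · exact hs.1.2 U hp hq
    · obtain ⟨a, ha, hq⟩ := mem_iUnion₂.1 hq
      exact (h1 a ha).1.1.2 U ((h1 a ha).2.1 hp) hq
    · obtain ⟨a, ha, hp⟩ := mem_iUnion₂.1 hp
      exact (h1 a ha).1.1.2 U hp ((h1 a ha).2.1 hq)
    · obtain ⟨a, ha, hp⟩ := mem_iUnion₂.1 hp
      obtain ⟨b, hb, hq⟩ := mem_iUnion₂.1 hq
      rcases le_total a b with l | l
      · exact (h1 b hb).1.1.2 U (hle b hb a l hp) hq
      · exact (h1 a ha).1.1.2 U hp (hle a ha b l hq)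
  · rintro ⟨U, V⟩ ⟨⟨p, ⟨hp, hp'⟩, rfl⟩, ⟨q, ⟨hq, hq'⟩, rfl⟩⟩
    obtain ⟨a, ha, hp⟩ := mem_iUnion₂.1 (hp.resolve_left hp')
    obtain ⟨b, hb, hq⟩ := mem_iUnion₂.1 (hq.resolve_left hq')
    obtain ⟨c, hc, h2⟩ := hI (max a b) (by rcases max_choice a b with e | e <;> rw [e] <;> assumption)
    refine ((h1 c hc).2.2.2 _ ⟨⟨p, ⟨mem_biUnion ((le_max_left a b).trans_lt h2) hp, hp'⟩, rfl⟩,
      ⟨q, ⟨mem_biUnion ((le_max_right a b).trans_lt h2) hq, hq'⟩, rfl⟩⟩).mono ?_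
    exact (subset_biUnion_of_mem (u := f) hc).trans subset_union_right

include hB hK in
lemma safe_all (μ : Cardinal) : ∀ (O : Set (Set K × Set K)), #O = μ → ∀ s, Safe B s →
    ∃ t, s ⊆ t ∧ Safe B t ∧ Sm μ (t \ s) ∧ ∀ o ∈ O, Ful t o := by
  induction μ using (wellFounded_lt (α := Cardinal)).induction with
  | _ μ ih =>
    intro O hO s hs
    by_cases hμ : μ < ℵ₀
    · obtain ⟨t, h1, h2, h3, h4⟩ := safe_finite hB hK O
        (Cardinal.lt_aleph0_iff_set_finite.1 (hO ▸ hμ)) hs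
      exact ⟨t, h1, h2, Or.inl h3, h4⟩
    rw [not_lt] at hμ
    obtain ⟨e⟩ : Nonempty (μ.ord.ToType ≃ O) := Cardinal.eq.1 ((Cardinal.mk_ord_toType _).trans hO.symm)
    obtain ⟨f, hf⟩ := trans_rec (W := μ.ord.ToType) (S := Set (Set K × Bool))
      (fun a f t => (Safe B t ∧ s ⊆ t ∧ (∀ b < a, f b ⊆ t) ∧
        ∀ o ∈ gen ((⋃ b ∈ Iio a, f b) \ s), Ful t o) ∧ Sm #(Iio a) (t \ s) ∧ Ful t (e a))
      (by
        intro a f g t hfg h
        have e1 : ⋃ b ∈ Iio a, f b = ⋃ b ∈ Iio a, g b := iUnion₂_congr hfg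
        rw [← e1]
        exact ⟨⟨h.1.1, h.1.2.1, fun b hb => hfg b hb ▸ h.1.2.2.1 b hb, h.1.2.2.2⟩, h.2⟩)
      (by
        intro a f h
        have h1 : Safe B (s ∪ ⋃ b ∈ Iio a, f b) := by
          by_cases hl : ∀ b ∈ Iio a, ∃ c ∈ Iio a, b < c
          · exact safe_lim hB _ hl hs f fun b hb => (h b hb).1
          · push Not at hl
            obtain ⟨b, hb, hl⟩ := hl
            convert (h b hb).1.1 using 1
            refine Subset.antisymm (union_subset (h b hb).1.2.1 (iUnion₂_subset fun c hc => ?_))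
              ((subset_biUnion_of_mem (u := f) hb).trans subset_union_right)
            exact (hl c hc).eq_or_lt.elim (fun e => e ▸ Subset.rfl) ((h b hb).1.2.2.1 c)
        have h2 : Sm #(Iio a) ((⋃ b ∈ Iio a, f b) \ s) := by
          refine (Sm.biUnion (Iio a) (fun b => f b \ s) fun b hb => (h b hb).2.1.mono
            (Cardinal.mk_le_mk_of_subset (Iio_subset_Iio (le_of_lt hb))) Subset.rfl).mono le_rfl ?_
          rintro p ⟨hp, hp'⟩
          obtain ⟨b, hb, hp⟩ := mem_iUnion₂.1 hp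
          exact mem_biUnion hb ⟨hp, hp'⟩
        have h3 : Sm #(Iio a) ({(e a).1} ∪ gen ((⋃ b ∈ Iio a, f b) \ s)) :=
          Sm.union (Or.inl (finite_singleton _)) h2.gen
        have h4 := Cardinal.mk_Iio_toType_ord_lt a
        obtain ⟨t, h5, h6, h7, h8⟩ := ih _ (h3.elim (fun h => h.lt_aleph0.trans_le hμ)
          fun h => h.2.trans_lt h4) _ rfl _ h1
        refine ⟨t, ⟨h6, subset_union_left.trans h5, fun b hb =>
          ((subset_biUnion_of_mem (u := f) (show b ∈ Iio a from hb)).trans subset_union_right).trans h5,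
          fun o ho => h8 o (Or.inr ho)⟩, ?_, h8 _ (Or.inl rfl)⟩
        have h9 : Sm #(Iio a) (t \ (s ∪ ⋃ b ∈ Iio a, f b)) := by
          rcases h7 with h7 | h7
          · exact Or.inl h7
          · rcases h3 with h3 | h3
            · exact absurd h7.1 (not_le.2 h3.lt_aleph0)
            · exact Or.inr ⟨h3.1, h7.2.trans h3.2⟩
        refine (h2.union h9).mono le_rfl fun p hp => ?_
        by_cases hp' : p ∈ ⋃ b ∈ Iio a, f b
        · exact Or.inl ⟨hp', hp.2⟩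
        · exact Or.inr ⟨hp.1, fun h => h.elim hp.2 hp'⟩)
    have hno : NoMaxOrder μ.ord.ToType := Cardinal.noMaxOrder hμ
    refine ⟨s ∪ ⋃ a ∈ univ, f a, subset_union_left, safe_lim hB _
      (fun a _ => let ⟨b, hb⟩ := exists_gt a; ⟨b, trivial, hb⟩) hs f fun a _ => (hf a).1, ?_,
      fun o ho => ?_⟩
    · have e1 : #(univ : Set μ.ord.ToType) = μ := by simp
      refine (Sm.biUnion univ (fun b => f b \ s) fun b _ => (hf b).2.1.mono
        (Cardinal.mk_le_mk_of_subset (subset_univ _)) Subset.rfl).mono e1.le ?_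
      rintro p ⟨hp, hp'⟩
      obtain ⟨b, hb, hp⟩ := mem_iUnion₂.1 (hp.resolve_left hp')
      exact mem_biUnion hb ⟨hp, hp'⟩
    · have := (hf (e.symm ⟨o, ho⟩)).2.2
      rw [e.apply_symm_apply] at this
      exact this.mono ((subset_biUnion_of_mem (u := f) (mem_univ _)).trans subset_union_right)

include hB hK in
theorem compact_res : ∃ B0 B1 : Set (Set K), B0 ∪ B1 = B ∧ Disjoint B0 B1 ∧
    IsTopologicalBasis B0 ∧ IsTopologicalBasis B1 := by
  obtain ⟨t, -, h2, -, h4⟩ := safe_all hB hK _ univ rfl ∅ ⟨⟨by simp, by simp⟩, fun x V i hV hx =>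
    let ⟨U, h1, h2, h3⟩ := hB.exists_subset_of_mem_open hx hV
    ⟨U, h1, h2, h3, id⟩⟩
  have key : ∀ i x V, x ∈ V → IsOpen V → ∃ U, (U, i) ∈ t ∧ x ∈ U ∧ U ⊆ V := fun i x V hx hV =>
    h4 ({x}, V) trivial hV (by simpa using hx) i x (by simp)
  refine ⟨{U | (U, true) ∈ t}, B \ {U | (U, true) ∈ t}, union_sdiff_cancel fun U hU => h2.1.1 _ hU,
    disjoint_sdiff_right, isTopologicalBasis_of_isOpen_of_nhds
      (fun U hU => hB.isOpen (h2.1.1 _ hU)) (key true), isTopologicalBasis_of_isOpen_of_nhds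
      (fun U hU => hB.isOpen hU.1) fun x V hx hV => ?_⟩
  obtain ⟨U, h5, h6⟩ := key false x V hx hV
  exact ⟨U, ⟨h2.1.1 _ h5, fun h => h2.1.2 U h h5⟩, h6⟩

end

end Pool.Agent.H.MP_155eb7_gt
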