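import Mathlib
import Pool.Agent.H.MP_87f021_gt.Para
import Pool.Agent.H.MP_155eb7_gt.Compact

set_option autoImplicit false

namespace Pool.Agent.H.MP_155eb7_gt

open Set Function TopologicalSpace Topology Filter Pool.Agent.H.MP_87f021_gt

def X0 : Type := X

instance : TopologicalSpace X0 := generateFrom (range I : Set (Set X))

lemma basis0 : IsTopologicalBasis (α := X0) (range I : Set (Set X)) := by
  refine ⟨?_, ?_, rfl⟩
  · rintro _ ⟨a, rfl⟩ _ ⟨b, rfl⟩ y ⟨ha, hb⟩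
    rcases On.total ha hb with h | h
    · exact ⟨_, ⟨b, rfl⟩, hb, fun w hw => ⟨On.le hw h, hw⟩⟩
    · exact ⟨_, ⟨a, rfl⟩, ha, fun w hw => ⟨hw, On.le hw h⟩⟩
  · exact eq_univ_of_forall fun y => ⟨_, ⟨_, rfl⟩, on_W y 0⟩

lemma I_open0 (u : T) : IsOpen (X := X0) (I u) := basis0.isOpen ⟨u, rfl⟩

lemma noiso0 (x : X0) : ¬ IsOpen ({x} : Set X0) := by
  intro h
  obtain ⟨_, ⟨a, rfl⟩, -, h2⟩ := basis0.exists_subset_of_mem_open (mem_singleton x) h
  obtain ⟨y, h3, h4⟩ := two_pts a x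
  exact h4 (h2 h3)

instance : T2Space X0 := ⟨fun x y h => by
  obtain ⟨u, v, h1, h2, h3, h4⟩ := ex_sep h
  exact ⟨I u, I v, I_open0 u, I_open0 v, h1, h2,
    Set.disjoint_left.2 fun w h5 h6 => (On.total h5 h6).elim h3 h4⟩⟩

def Cand (B : Set (Set X0)) (c u : T) (U : Set X0) : Prop :=
  U ∈ B ∧ ∃ c', par c' = c ∧ dep c' = dep c + 1 ∧ (I u : Set X0) ⊆ U ∧ U ⊆ (I c' : Set X0)

def Lv (B : Set (Set X0)) : ℕ → Set T
  | 0 => {.root}
  | n + 1 => {u | ∃ c ∈ Lv B n, (∃ U, Cand B c u U) ∧ ∀ v, Le v u → (∃ U, Cand B c v U) → v = u}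

lemma Cand.le {B : Set (Set X0)} {c u : T} {U : Set X0} (h : Cand B c u U) :
    Le c u ∧ dep c < dep u := by
  obtain ⟨-, c', rfl, h1, h2, h3⟩ := h
  have h4 : Le c' u := sep fun y hy => h3 (h2 hy)
  have := h4.dep_le
  exact ⟨(le_par c').trans h4, by omega⟩

lemma lv_anti (B : Set (Set X0)) (n : ℕ) : ∀ u ∈ Lv B n, ∀ v ∈ Lv B n, Le u v → u = v := by
  induction n with
  | zero => rintro u rfl v rfl -; rfl
  | succ n ih =>
    rintro u ⟨c, h1, ⟨U, h2⟩, -⟩ v ⟨c', h4, ⟨U', h5⟩, h6⟩ h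
    have : c = c' := by
      rcases (h2.le.1.trans h).total h5.le.1 with h7 | h7
      · exact ih c h1 c' h4 h7
      · exact (ih c' h4 c h1 h7).symm
    subst this
    exact h6 u h ⟨U, h2⟩

lemma lv_anc (B : Set (Set X0)) {m n : ℕ} (h : m ≤ n) : ∀ u ∈ Lv B n, ∃ a ∈ Lv B m, Le a u := by
  induction n, h using Nat.le_induction with
  | base => exact fun u hu => ⟨u, hu, Le.rfl⟩
  | succ n _ ih =>
    rintro u ⟨c, h1, ⟨U, h2⟩, -⟩
    obtain ⟨a, h3, h4⟩ := ih c h1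
    exact ⟨a, h3, h4.trans h2.le.1⟩

lemma lv_step {B : Set (Set X0)} (hB : IsTopologicalBasis B) (x : X0) {n : ℕ} {c : T}
    (hc : c ∈ Lv B n) (hx : On c x) : ∃ u ∈ Lv B (n + 1), On u x ∧ ∃ U, Cand B c u U := by
  classical
  obtain ⟨c', h1, h2, h3⟩ := ex_child hx
  obtain ⟨U, h4, h5, h6⟩ := hB.exists_subset_of_mem_open (a := x) h1 (I_open0 c')
  obtain ⟨_, ⟨u, rfl⟩, h7, h8⟩ := basis0.exists_subset_of_mem_open h5 (hB.isOpen h4)
  have hex : ∃ k, ∃ u, On u x ∧ (∃ U, Cand B c u U) ∧ dep u = k :=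
    ⟨_, u, h7, ⟨U, h4, c', h2, h3, h8, h6⟩, rfl⟩
  obtain ⟨v, h9, h10, h11⟩ := Nat.find_spec hex
  refine ⟨v, ⟨c, hc, h10, fun w h12 h13 => h12.eq_of_dep ?_⟩, h9, h10⟩
  rw [h11]
  exact Nat.find_min' hex ⟨w, h9.le h12, h13, rfl⟩

lemma lv_ex {B : Set (Set X0)} (hB : IsTopologicalBasis B) (x : X0) (n : ℕ) :
    ∃ c ∈ Lv B n, On c x ∧ n ≤ dep c := by
  induction n with
  | zero => exact ⟨.root, rfl, (on_W x 0).le (root_le _), le_rfl⟩
  | succ n ih =>
    obtain ⟨c, h1, h2, h3⟩ := ih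
    obtain ⟨u, h4, h5, U, h6⟩ := lv_step hB x h1 h2
    have := h6.le.2
    exact ⟨u, h4, h5, by omega⟩

theorem tree_res (B : Set (Set X0)) (hB : IsTopologicalBasis B) :
    ∃ B0 B1 : Set (Set X0), B0 ∪ B1 = B ∧ Disjoint B0 B1 ∧
      IsTopologicalBasis B0 ∧ IsTopologicalBasis B1 := by
  let F : ℕ → Set (Set X0) := fun n => {U | ∃ c ∈ Lv B n, ∃ u ∈ Lv B (n + 1), Cand B c u U}
  have h1 : ∀ m n U, m < n → U ∈ F m → U ∉ F n := by
    rintro m n U h ⟨-, -, u, h2, -, -, -, -, h3, -⟩ ⟨c, h4, -, -, -, c', rfl, h5, -, h6⟩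
    obtain ⟨a, h7, h8⟩ := lv_anc B (Nat.succ_le_of_lt h) _ h4
    have h9 : Le c' u := sep fun y hy => h6 (h3 hy)
    have h10 := lv_anti B _ a h7 u h2 (h8.trans ((le_par c').trans h9))
    have := h8.dep_le
    have := h9.dep_le
    rw [h10] at *
    omega
  have h2 : ∀ i (x : X0) V, x ∈ V → IsOpen V → ∃ n, ∃ U ∈ F (2 * n + i), x ∈ U ∧ U ⊆ V := by
    intro i x V hx hV
    obtain ⟨_, ⟨w, rfl⟩, h3, h4⟩ := basis0.exists_subset_of_mem_open hx hV
    obtain ⟨c, h5, h6, h7⟩ := lv_ex hB x (2 * dep w + i)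
    obtain ⟨u, h8, h9, U, h10⟩ := lv_step hB x h5 h6
    refine ⟨dep w, U, ⟨c, h5, u, h8, h10⟩, ?_⟩
    obtain ⟨-, c', rfl, -, h11, h12⟩ := h10
    exact ⟨h11 h9, fun y hy => h4 (On.le (h12 hy) ((On.of_dep h3 h6 (by omega)).trans (le_par c')))⟩
  have h3 : ∀ n U, U ∈ F n → U ∈ B := by
    rintro n U ⟨-, -, -, -, h, -⟩
    exact h
  refine ⟨{U | ∃ n, U ∈ F (2 * n)}, B \ {U | ∃ n, U ∈ F (2 * n)},
    union_sdiff_cancel fun U ⟨n, hU⟩ => h3 _ _ hU, disjoint_sdiff_right,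
    isTopologicalBasis_of_isOpen_of_nhds (fun U ⟨n, hU⟩ => hB.isOpen (h3 _ _ hU)) fun x V hx hV => ?_,
    isTopologicalBasis_of_isOpen_of_nhds (fun U hU => hB.isOpen hU.1) fun x V hx hV => ?_⟩
  · obtain ⟨n, U, h4, h5⟩ := h2 0 x V hx hV
    exact ⟨U, ⟨n, h4⟩, h5⟩
  · obtain ⟨n, U, h4, h5⟩ := h2 1 x V hx hV
    refine ⟨U, ⟨h3 _ _ h4, fun ⟨m, h6⟩ => ?_⟩, h5⟩
    rcases lt_or_gt_of_ne (show 2 * m ≠ 2 * n + 1 by omega) with l | l
    · exact h1 _ _ U l h6 h4
    · exact h1 _ _ U l h4 h6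

open Classical in
noncomputable def g (y : X) (a : T) : Bool := decide (y ∈ Bs a)

lemma g_true {y : X} {a : T} : g y a = true ↔ y ∈ Bs a := by simp [g]

lemma g_false {y : X} {a : T} : g y a = false ↔ y ∉ Bs a := by simp [g]

def K : Set (T → Bool) := closure (range g)

instance : CompactSpace K := isCompact_iff_compactSpace.1 isClosed_closure.isCompact

noncomputable def gK (y : X) : K := ⟨g y, subset_closure ⟨y, rfl⟩⟩

lemma co_open (a : T) (b : Bool) : IsOpen {f : K | f.1 a = b} := by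
  have : Continuous fun f : K => f.1 a := (continuous_apply a).comp continuous_subtype_val
  exact (isOpen_discrete {b}).preimage this

lemma K_imp {c a : T} {b b' : Bool} (h : ∀ y, g y c = b → g y a = b') (f : K) (hf : f.1 c = b) :
    f.1 a = b' := by
  have h0 : Continuous fun f : T → Bool => (f c, f a) :=
    (continuous_apply c).prodMk (continuous_apply a)
  have hc : IsClosed {f : T → Bool | f c = b → f a = b'} :=
    (isClosed_discrete {p : Bool × Bool | p.1 = b → p.2 = b'}).preimage h0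
  exact closure_minimal (range_subset_iff.2 h) hc f.2 hf

lemma noisoK (f : K) : ¬ IsOpen ({f} : Set K) := by
  intro h
  have hg : Continuous gK := by
    refine Continuous.subtype_mk (continuous_pi fun a => ?_) _
    refine (IsLocallyConstant.iff_isOpen_fiber.2 fun b => ?_).continuous
    cases b
    · convert (Bs_closed a).isOpen_compl using 1
      ext y
      exact g_false
    · convert Bs_open a using 1
      ext y
      exact g_true
  obtain ⟨U, hU, e⟩ := isOpen_induced_iff.1 h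
  have hf : f.1 ∈ U := by
    have : f ∈ Subtype.val ⁻¹' U := e ▸ rfl
    exact this
  obtain ⟨_, h1, y, rfl⟩ := mem_closure_iff.1 f.2 U hU hf
  have h2 : gK y = f := by
    have : gK y ∈ Subtype.val ⁻¹' U := h1
    rwa [e] at this
  apply noiso y
  convert h.preimage hg using 1
  ext w
  refine ⟨fun hw => by rw [hw]; exact h2, fun hw => ?_⟩
  have h3 : g w = g y := congrArg Subtype.val (hw.trans h2.symm)
  refine (basis.inseparable_iff.2 ?_).eq
  rintro _ ⟨a, rfl⟩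
  rw [← g_true, ← g_true, h3]

def Gam : Set (K × X0) := range fun y : X => (gK y, y)

def P (a : T) : Set (K × X0) := {p | p.1.1 a = true ∧ On (par a) p.2}

noncomputable def sn (x : X) (n : ℕ) : T := .S (W x n) (sel x n)

def O (x : X) (n : ℕ) : Set (K × X0) :=
  {p | p.1.1 (nd x 0) = false ∧ p.1.1 (sn x n) = true ∧ On (sn x n) p.2}

def BP : Set (Set (K × X0)) :=
  range P ∪ {U | ∃ x n, Act x ∧ U = O x n} ∪ {U | IsOpen U ∧ Disjoint U Gam}

lemma BP_open {U : Set (K × X0)} (h : U ∈ BP) : IsOpen U := by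
  rcases h with (⟨a, rfl⟩ | ⟨x, n, -, rfl⟩) | h
  · exact (co_open a true).prod (I_open0 (par a))
  · exact ((co_open _ false).preimage continuous_fst).inter
      ((co_open _ true).prod (I_open0 _))
  · exact h.1

lemma W_lt (x : X) {m n : ℕ} (h : m < n) : dep (W x m) < dep (W x n) := by
  obtain ⟨c, -, h2, -, h4⟩ := x.2 (res (sel x) m) (sel x m)
  have h5 : dep c ≤ dep (W x (m + 1)) := h4.dep_le
  have h6 : dep c = dep (W x m) + 1 := h2
  have h7 := (W_mono x (Nat.succ_le_of_lt h)).dep_le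
  simp only [Nat.succ_eq_add_one] at h7
  omega

lemma dec (w : X) (a : T) : (∃ m, Act w ∧ a = nd w m) ∨ ∃ v, On v w ∧ ∀ y, On v y → g y a = g w a := by
  by_cases h : w ∈ Bs a
  · rcases id h with ⟨t, h1, h2⟩ | h1
    · exact Or.inr ⟨t, h2, fun y hy => (g_true.2 (I_sub h1 hy)).trans (g_true.2 h).symm⟩
    · exact Or.inl h1
  · obtain ⟨v, h1, h2⟩ := out' h
    exact Or.inr ⟨v, h1, fun y hy => (g_false.2 (h2 hy)).trans (g_false.2 h).symm⟩

lemma sn_on {x : X} (hx : Act x) (n : ℕ) : On (sn x n) x := ⟨n + 1, hx.2 _ _⟩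

lemma basisP : IsTopologicalBasis BP := by
  refine isTopologicalBasis_of_isOpen_of_nhds (fun U => BP_open) ?_
  rintro ⟨f, w⟩ U hp hU
  by_cases hcl : (f, w) ∈ closure Gam
  swap
  · exact ⟨U \ closure Gam, Or.inr ⟨hU.sdiff isClosed_closure,
      disjoint_left.2 fun _ h1 h2 => h1.2 (subset_closure h2)⟩, ⟨hp, hcl⟩, sdiff_subset⟩
  obtain ⟨U1, U2, h1, h2, h3, h4, h5⟩ := isOpen_prod_iff.1 hU f w hp
  obtain ⟨_, ⟨u0, rfl⟩, h6, h7⟩ := basis0.exists_subset_of_mem_open h4 h2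
  obtain ⟨U3, h8, rfl⟩ := isOpen_induced_iff.1 h1
  obtain ⟨s, r, h9, h10⟩ := isOpen_pi_iff.1 h8 f.1 h3
  have hin : ∀ p : K × X0, (∀ a ∈ s, p.1.1 a = f.1 a) → On u0 p.2 → p ∈ U := fun p e h =>
    h5 ⟨h10 fun a ha => by rw [e a ha]; exact (h9 a ha).2, h7 h⟩
  have G : ∀ u a a', On u w → ∃ y, On u y ∧ g y a = f.1 a ∧ g y a' = f.1 a' := by
    intro u a a' hu
    obtain ⟨_, h11, y, rfl⟩ := mem_closure_iff.1 hcl _
      (((co_open a (f.1 a)).inter (co_open a' (f.1 a'))).prod (I_open0 u)) ⟨⟨rfl, rfl⟩, hu⟩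
    exact ⟨y, h11.2, h11.1⟩
  have G1 : ∀ a v, On v w → (∀ y, On v y → g y a = g w a) → f.1 a = g w a := by
    intro a v h11 h12
    obtain ⟨y, h13, h14, -⟩ := G v a a h11
    rw [← h14, h12 y h13]
  by_cases hA : Act w ∧ f.1 (nd w 0) = false
  · have h11 : ∀ a, ∀ᶠ n in atTop, ∀ p ∈ O w n, p.1.1 a = f.1 a := by
      intro a
      rcases dec w a with ⟨m, -, rfl⟩ | ⟨v, h11, h12⟩
      · have h13 : ∀ y, g y (nd w 0) = false → g y (nd w m) = false := fun y hy =>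
          g_false.2 fun h => g_false.1 hy ((po_nd hA.1 (Nat.zero_le m)).sub h)
        exact Eventually.of_forall fun n p hp => (K_imp h13 _ hp.1).trans (K_imp h13 _ hA.2).symm
      · obtain ⟨k, hk⟩ := id h11
        filter_upwards [eventually_ge_atTop k] with n hn p hp
        rw [G1 a v h11 h12]
        exact K_imp (fun y hy => h12 y (Bs_sub_I (c := sn w n) (hk.trans (W_mono w hn))
          (g_true.1 hy))) _ hp.2.1
    obtain ⟨k, hk⟩ := id h6
    obtain ⟨n, h12, h13⟩ := (((eventually_all_finset s).2 fun a _ => h11 a).and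
      (eventually_ge_atTop k)).exists
    refine ⟨O w n, Or.inl (Or.inr ⟨w, n, hA.1, rfl⟩), ⟨hA.2, ?_, sn_on hA.1 n⟩, fun p hp =>
      hin p (fun a ha => h12 a ha p hp)
        (hp.2.2.le ((hk.trans (W_mono w h13)).trans (le_par (sn w n))))⟩
    obtain ⟨y, h14, h15, -⟩ := G (sn w n) (sn w n) (sn w n) (sn_on hA.1 n)
    exact h15.symm.trans (g_true.2 (I_sub (top_self _) h14))
  · have hf : ∀ a, f.1 a = g w a := by
      intro a
      rcases dec w a with ⟨m, h11, rfl⟩ | ⟨v, h11, h12⟩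
      · have h12 : f.1 (nd w 0) = true := by simpa [h11] using hA
        obtain ⟨y, h13, h14, h15⟩ := G (W w m) (nd w 0) (nd w m) (on_W w m)
        rw [← h15, g_true.2 (mem_nd h11 m), g_true]
        rcases mem_nd_cases (g_true.1 (h14.trans h12)) with rfl | ⟨j, -, h16⟩
        · exact mem_nd h11 m
        · refine I_sub (top_nd h11 ?_) h16
          by_contra hj
          rcases h16.total h13 with h17 | h17
          · exact nd_not_on w j ⟨m, h17⟩
          · rcases le_nd h17 with e | h17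
            · exact nd_not_on w j (e ▸ on_W w m)
            · exact absurd h17.dep_le (not_le.2 (W_lt w (not_le.1 hj)))
      · exact G1 a v h11 h12
    have h11 : ∀ a, ∀ᶠ N in atTop, ∀ c, Loc w N c → ∀ y ∈ Bs c, g y a = g w a := by
      intro a
      by_cases h : w ∈ Bs a
      · obtain ⟨N, hN⟩ := small h
        filter_upwards [eventually_ge_atTop N] with n hn c hc y hy
        exact (g_true.2 ((hN c (hc.mono hn)).sub hy)).trans (g_true.2 h).symm
      · obtain ⟨v, h11, h12⟩ := out' h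
        obtain ⟨N, hN⟩ := loc_par h11
        filter_upwards [eventually_ge_atTop N] with n hn c hc y hy
        exact (g_false.2 (h12 (Bs_sub_I (hN c (hc.mono hn)) hy))).trans (g_false.2 h).symm
    obtain ⟨k, hk⟩ := loc_par h6
    obtain ⟨n, h12, h13⟩ := (((eventually_all_finset s).2 fun a _ => h11 a).and
      (eventually_ge_atTop k)).exists
    obtain ⟨c, hc⟩ := ex_loc w n
    refine ⟨P c, Or.inl (Or.inl ⟨c, rfl⟩), ⟨(hf c).trans (g_true.2 hc.mem),
      Bs_sub_I Le.rfl hc.mem⟩, fun p hp => hin p (fun a ha => ?_) (hp.2.le (hk c (hc.mono h13)))⟩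
    rw [hf a]
    exact K_imp (fun y hy => h12 a ha c hc y (g_true.1 hy)) _ hp.1

lemma P_mem {y : X} {a : T} : (gK y, (y : X0)) ∈ P a ↔ y ∈ Bs a :=
  ⟨fun h => g_true.1 h.1, fun h => ⟨g_true.2 h, Bs_sub_I Le.rfl h⟩⟩

lemma not_in_nd {x w : X} {e : T} (he : ¬ On e x) (h : ∀ j, ¬ Le (nd x j) e) (hw : On e w) :
    w ∉ Bs (nd x 0) := by
  intro h1
  rcases mem_nd_cases h1 with rfl | ⟨j, -, h2⟩
  · exact he hw
  · rcases h2.total hw with h3 | h3
    · exact h j h3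
    · rcases le_nd h3 with rfl | h3
      · exact h j Le.rfl
      · exact he ⟨j, h3⟩

lemma one_off (a : T) (x : X) : ∃ δ, ¬ On (.S a δ) x := by
  by_contra h
  push Not at h
  simpa using ((h true).of_dep (h false) le_rfl).eq_of_dep le_rfl

theorem not_resP (B0 B1 : Set (Set (K × X0))) (h : B0 ∪ B1 ⊆ BP) (hd : Disjoint B0 B1) :
    ¬ (IsTopologicalBasis B0 ∧ IsTopologicalBasis B1) := by
  rintro ⟨h0, h1⟩
  obtain ⟨y, b, hy, -, h2⟩ := ramsey fun a => P a ∈ B0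
  have key : ∀ V ∈ BP, (gK y, (y : X0)) ∈ V → V ⊆ P b → ∃ a, V = P a ∧ y ∈ Bs a ∧ Bs a ⊆ Bs b := by
    rintro V ((⟨a, rfl⟩ | ⟨x, m, hx, rfl⟩) | hV) h3 h4
    · exact ⟨a, rfl, P_mem.1 h3, fun w hw => P_mem.1 (h4 (P_mem.2 hw))⟩
    · exfalso
      have h5 : ∀ w, On (sn x m) w → w ∉ Bs (nd x 0) → w ∈ Bs b := fun w h5 h6 =>
        P_mem.1 (h4 ⟨g_false.2 h6, g_true.2 (I_sub (top_self _) h5), h5⟩)
      obtain ⟨δ, h6⟩ := one_off (sn x m) y
      obtain ⟨ε, h7⟩ := one_off (.S (sn x m) δ) x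
      obtain ⟨w, hw⟩ := ex_pt (.S (.S (sn x m) δ) ε)
      have h8 : ∀ v : T, Le v (.S (.S (sn x m) δ) ε) → (∀ a c, v ≠ .S a c) → Le v (W x m) := by
        intro v h8 h9
        exact ((((h8.cases.resolve_left (h9 _ _)).cases).resolve_left (h9 _ _)).cases).resolve_left
          (h9 _ _)
      have h9 := h5 w (hw.le ((le_par (.S (sn x m) δ)).trans (le_par (.S _ ε))))
        (not_in_nd h7 (fun j hj => nd_not_on x j ⟨m, h8 _ hj fun _ _ e => by cases e⟩) hw)
      have h10 : On (sn x m) y := h3.2.2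
      have hw' : On (.S (sn x m) δ) w := hw.le (le_par (.S (.S (sn x m) δ) ε))
      have h11 : ∀ v, On v y → On v w → Le v (sn x m) := by
        intro v h11 h12
        rcases h12.total hw' with h13 | h13
        · exact h13.cases.resolve_left fun e => h6 (e ▸ h11)
        · exact absurd (h11.le h13) h6
      rcases h2 with ⟨⟨n, rfl⟩, -⟩ | ⟨-, h12, -⟩
      · rcases mem_nd_cases h9 with rfl | ⟨j, -, h13⟩
        · exact h6 hw'
        · rcases h13.total hw with h14 | h14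
          · exact nd_not_on y j (h10.le ((h8 _ h14 fun _ _ e => by cases e).trans (le_par (sn x m))))
          · rcases le_nd h14 with e | h14
            · cases e
            · exact h6 ⟨j, (le_par _).trans h14⟩
      · obtain ⟨x', n, -, e⟩ := h12 _ (h11 _ (Bs_sub_I Le.rfl hy) (Bs_sub_I Le.rfl h9)) h10
        cases e
    · exact absurd ⟨y, rfl⟩ (disjoint_left.1 hV.2 h3)
  rcases h2 with ⟨-, h2⟩ | ⟨-, -, h2⟩
  · obtain ⟨V, hV, h3, h4⟩ := h0.exists_subset_of_mem_open (P_mem.2 hy)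
      (BP_open (Or.inl (Or.inl ⟨b, rfl⟩)))
    obtain ⟨a, rfl, h5, h6⟩ := key V (h (Or.inl hV)) h3 h4
    exact h2 a h5 h6 hV
  · obtain ⟨V, hV, h3, h4⟩ := h1.exists_subset_of_mem_open (P_mem.2 hy)
      (BP_open (Or.inl (Or.inl ⟨b, rfl⟩)))
    obtain ⟨a, rfl, h5, h6⟩ := key V (h (Or.inr hV)) h3 h4
    exact Set.disjoint_left.1 hd (h2 a h5 h6) hV

end Pool.Agent.H.MP_155eb7_gt
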